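import Pool.Agent.H70pc.Base
import Pool.Agent.H70pc.Length

/-!
# MP_f07be6_gt, Q2: the length of the Frenet frame

For every `n ≥ 4` the Frenet frame of each nondegenerate closed curve in `ℝⁿ` is longer than
`2π μ(n)`. Since `μ(n) = 1`, this is `L(E) > 2π`, which follows from `L(E) > ∫ κ₁ ds` and from
Fenchel's theorem, proved here in `ℝⁿ`.
-/

set_option autoImplicit false

open Real

namespace Pool.Agent.Results.MP_f07be6_gt.FrameLength

open Pool.Agent.H70pc

/-- For every `n ≥ 4` and every nondegenerate closed curve `γ` in `ℝⁿ`, the length of its Frenet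
frame is greater than `2π μ(n)`. -/
theorem result : ∀ n : ℕ, 4 ≤ n → ∀ μ : ℕ, IsMu n μ →
    ∀ γ : ℝ → E n, IsClosedCurve γ → Nondegenerate γ → 2 * π * μ < frameLength γ := by
  intro n hn μ hμ γ hc hnd
  have h1 : IsMu n 1 := ⟨⟨le_rfl, (exists_nondegenerate n).2 hn⟩, fun _ hm => hm.1⟩
  have h2 : μ = 1 := hμ.unique h1
  rw [h2, Nat.cast_one, mul_one]
  exact frameLength_gt (by omega) hc hnd

end Pool.Agent.Results.MP_f07be6_gt.FrameLength
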