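import Pool.Agent.H70pc.Base

/-!
# MP_f07be6_gt, Q1: the least multiplicity of a perturbable circle

For every `n ≥ 4` the plane circle traversed once already has nondegenerate closed curves in each of
its `C^∞` neighbourhoods, so `μ(n) = 1`. The perturbation is `(cos t, sin t, ε f(t))` with
`f'' + f = g(2t)`, where `g` is a nondegenerate closed curve in `ℝⁿ⁻²`.
-/

set_option autoImplicit false

namespace Pool.Agent.Results.MP_f07be6_gt.LeastMultiplicity

open Pool.Agent.H70pc

/-- For every `n ≥ 4`, `μ(n) = 1`. -/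
theorem result : ∀ n : ℕ, 4 ≤ n → IsMu n 1 := fun n hn =>
  ⟨⟨le_rfl, (exists_nondegenerate n).2 hn⟩, fun _ hm => hm.1⟩

end Pool.Agent.Results.MP_f07be6_gt.LeastMultiplicity
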